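import Pool.Agent.H84.SM.Targets

/-!
# MP_70ba79_ag, row FDN: denominators of the coefficients in the special frames
-/

set_option autoImplicit false

namespace Pool.Agent.H54.SM

open MvPolynomial Pool.Agent.H84.SM

/-! ### Weighted homogeneous polynomials -/

section Hom

variable {k : Type} [Field k]

theorem hom_aeval {σ τ : Type} (v : σ → ℤ) (P : MvPolynomial σ k) (D : ℤ)
    (hP : ∀ m, coeff m P ≠ 0 → ∑ i ∈ m.support, (m i) • v i = D) (w : τ → ℤ)
    (f : σ → MvPolynomial τ k) (hf : ∀ i, IsWeightedHomogeneous w (f i) (v i)) :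
    IsWeightedHomogeneous w (aeval f P) D := by
  rw [aeval_def, eval₂_eq]
  refine IsWeightedHomogeneous.sum _ _ _ fun m hm => ?_
  rw [← hP m (mem_support_iff.1 hm)]
  exact (IsWeightedHomogeneous.prod _ _ _ fun i _ => (hf i).pow (m i)).C_mul _

/-- the weights `x : 1`, `q : 2 - d` -/
def wq (d : ℕ) : Fin 3 ⊕ Fin 2 → ℤ := Sum.elim (fun _ => 1) (fun _ => 2 - d)

theorem hom_xb {G : MvPolynomial (Fin 3) k} {r d : ℕ} (hG : G.IsHomogeneous r) :
    IsWeightedHomogeneous (wq d) (aeval xb G : B2 k) (r : ℤ) := by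
  refine hom_aeval (fun _ => 1) G r (fun m hm => ?_) _ _ fun i => isWeightedHomogeneous_X k _ _
  have h := hG hm
  rw [Finsupp.weight_apply, Finsupp.sum] at h
  rw [← h]
  push_cast
  simp

theorem comp_mul {σ : Type} {w : σ → ℤ} {A : MvPolynomial σ k} {a : ℤ}
    (hA : IsWeightedHomogeneous w A a) (P : MvPolynomial σ k) (b : ℤ) :
    weightedHomogeneousComponent w b (A * P) = A * weightedHomogeneousComponent w (b - a) P := by
  induction P using MvPolynomial.induction_on' with
  | monomial u r =>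
    have h1 : IsWeightedHomogeneous w (monomial u r : MvPolynomial σ k) (Finsupp.weight w u) :=
      isWeightedHomogeneous_monomial _ _ _ rfl
    by_cases h : Finsupp.weight w u = b - a
    · have h2 : IsWeightedHomogeneous w (A * monomial u r) b := by
        have := hA.mul h1
        rwa [h, add_sub_cancel] at this
      rw [h2.weightedHomogeneousComponent_same, ← h, h1.weightedHomogeneousComponent_same]
    · rw [(hA.mul h1).weightedHomogeneousComponent_ne b fun h' => h (by omega),
        h1.weightedHomogeneousComponent_ne (b - a) (Ne.symm h), mul_zero]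
  | add p q hp hq => rw [mul_add, map_add, map_add, hp, hq, mul_add]

theorem hom_div {σ : Type} {w : σ → ℤ} {A P : MvPolynomial σ k} {a b : ℤ}
    (hA : IsWeightedHomogeneous w A a) (hA0 : A ≠ 0) (h : IsWeightedHomogeneous w (A * P) b) :
    IsWeightedHomogeneous w P (b - a) := by
  have h1 := comp_mul hA P b
  rw [h.weightedHomogeneousComponent_same] at h1
  have h2 := mul_left_cancel₀ hA0 h1
  rw [h2]
  exact weightedHomogeneousComponent_isWeightedHomogeneous _ _

/-- homogeneous elements of `P2` -/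
def HP (d : ℕ) (D : ℤ) (F : P2 k) : Prop :=
  ∀ j : ℕ, IsWeightedHomogeneous (wq d) (F.coeff j) (D - (3 - d) * j)

theorem HP.add {d : ℕ} {D : ℤ} {F F' : P2 k} (h : HP d D F) (h' : HP d D F') :
    HP d D (F + F') := fun j => by
  rw [Polynomial.coeff_add]
  exact (h j).add (h' j)

theorem HP_zero (d : ℕ) (D : ℤ) : HP d D (0 : P2 k) := fun j => by
  rw [Polynomial.coeff_zero]
  exact isWeightedHomogeneous_zero k _ _

theorem HP_sum {ι : Type} {d : ℕ} {D : ℤ} (s : Finset ι) (F : ι → P2 k)
    (h : ∀ i ∈ s, HP d D (F i)) : HP d D (∑ i ∈ s, F i) := fun j => by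
  rw [Polynomial.finset_sum_coeff]
  exact IsWeightedHomogeneous.sum _ _ _ fun i hi => h i hi j

theorem HP.mul {d : ℕ} {D D' : ℤ} {F F' : P2 k} (h : HP d D F) (h' : HP d D' F') :
    HP d (D + D') (F * F') := fun j => by
  rw [Polynomial.coeff_mul]
  refine IsWeightedHomogeneous.sum _ _ _ fun x hx => ?_
  have h1 := (h x.1).mul (h' x.2)
  have h2 : x.1 + x.2 = j := Finset.HasAntidiagonal.mem_antidiagonal.1 hx
  have h3 : D + D' - (3 - (d : ℤ)) * j = D - (3 - d) * x.1 + (D' - (3 - d) * x.2) := by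
    rw [← h2]
    push_cast
    ring
  rw [h3]
  exact h1

theorem HP_C {d : ℕ} {D : ℤ} {P : B2 k} (h : IsWeightedHomogeneous (wq d) P D) :
    HP d D (Polynomial.C P) := fun j => by
  rw [Polynomial.coeff_C]
  split_ifs with h0
  · rw [h0, Nat.cast_zero, mul_zero, sub_zero]
    exact h
  · exact isWeightedHomogeneous_zero k _ _

theorem HP_X (d : ℕ) : HP d (3 - d) (Polynomial.X : P2 k) := fun j => by
  rw [Polynomial.coeff_X]
  split_ifs with h0
  · rw [← h0, Nat.cast_one, mul_one, sub_self]
    exact isWeightedHomogeneous_one k _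
  · exact isWeightedHomogeneous_zero k _ _

theorem HP.pow {d : ℕ} {D : ℤ} {F : P2 k} (h : HP d D F) (n : ℕ) : HP d (n * D) (F ^ n) := by
  induction n with
  | zero =>
    rw [pow_zero, Nat.cast_zero, zero_mul]
    have h1 := HP_C (d := d) (isWeightedHomogeneous_one k (wq d))
    rwa [map_one] at h1
  | succ n ih =>
    rw [pow_succ]
    have := ih.mul h
    have e : ((n + 1 : ℕ) : ℤ) * D = n * D + D := by
      push_cast
      ring
    rw [e]
    exact this

theorem HP.neg {d : ℕ} {D : ℤ} {F : P2 k} (h : HP d D F) : HP d D (-F) := fun j => by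
  rw [Polynomial.coeff_neg]
  exact (h j).neg

theorem hom_gr {G : MvPolynomial (Fin 3) k} {d : ℕ} (hd : 2 ≤ d) (hG : G.IsHomogeneous d)
    (i : Fin 3) : IsWeightedHomogeneous (wq d) (gr G xb i : B2 k) ((d : ℤ) - 1) := by
  have h := hom_xb (d := d) (hG.pderiv (i := i))
  rw [Nat.cast_sub (by omega), Nat.cast_one] at h
  exact h

theorem hom_qb (d : ℕ) (i : Fin 2) : IsWeightedHomogeneous (wq d) (qb i : B2 k) (2 - d) :=
  isWeightedHomogeneous_X k _ _

theorem hom_xb1 (d : ℕ) (i : Fin 3) : IsWeightedHomogeneous (wq d) (xb i : B2 k) 1 :=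
  isWeightedHomogeneous_X k _ _

theorem hom_chy {G : MvPolynomial (Fin 3) k} {d : ℕ} (hd : 2 ≤ d) (hG : G.IsHomogeneous d)
    (l i : Fin 3) : IsWeightedHomogeneous (wq d) (chy G l i : B2 k) 1 := by
  have h : ∀ i j, IsWeightedHomogeneous (wq d) (gr G xb i * qb j : B2 k) 1 := fun i j => by
    have := (hom_gr hd hG i).mul (hom_qb (k := k) d j)
    rwa [show (d : ℤ) - 1 + (2 - d) = 1 by ring] at this
  unfold chy
  split_ifs
  · exact ((h _ _).add (h _ _)).neg
  · exact h _ _
  · exact h _ _

theorem hom_hs {G : MvPolynomial (Fin 3) k} {d : ℕ} (hd : 2 ≤ d) (hG : G.IsHomogeneous d)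
    (l : Fin 3) : IsWeightedHomogeneous (wq d) (hs G xb (chy G l) : B2 k) (d : ℤ) := by
  unfold hs
  refine IsWeightedHomogeneous.sum _ _ _ fun i _ => IsWeightedHomogeneous.sum _ _ _ fun j _ => ?_
  have h := ((hom_xb (d := d) ((hG.pderiv (i := j)).pderiv (i := i))).mul (hom_chy hd hG l i)).mul
    (hom_chy hd hG l j)
  have e : ((d - 1 - 1 : ℕ) : ℤ) + 1 + 1 = d := by omega
  rwa [e] at h

theorem HP_chw {G : MvPolynomial (Fin 3) k} {d : ℕ} (hd : 2 ≤ d) (hG : G.IsHomogeneous d)
    (l : Fin 3) : HP d 3 (chw G d l : P2 k) := by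
  unfold chw
  rw [sub_eq_add_neg]
  refine HP.add ?_ (HP.neg ?_)
  · have h1 : IsWeightedHomogeneous (wq d) ((d : B2 k) * aeval xb G) (d : ℤ) := by
      have := (hom_xb (d := d) hG).C_mul (d : k)
      rwa [map_natCast] at this
    have h2 := (HP_C h1).mul (HP_X (k := k) d)
    rwa [show (d : ℤ) + (3 - d) = 3 by ring] at h2
  · apply HP_C
    have h1 := (hom_xb1 (k := k) d (l + 1)).mul (hom_qb (k := k) d 1)
    have h2 := (hom_xb1 (k := k) d (l + 2)).mul (hom_qb (k := k) d 0)
    have h3 := (hom_hs hd hG l).mul (h1.sub h2)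
    rwa [show (d : ℤ) + (1 + (2 - d)) = 3 by ring] at h3

theorem HP_Psi {G : MvPolynomial (Fin 3) k} {d : ℕ} (hd : 2 ≤ d) (hG : G.IsHomogeneous d)
    {e n : ℕ} {N : R2 k} (hN : BHN e n N) (l : Fin 3) : HP d (e + n) (Psi G d l N) := by
  have h0 : Psi G d l N = ∑ J ∈ Finset.range (N.natDegree + 1),
      Polynomial.C (aeval (Sum.elim xb (chy G l)) (N.coeff J)) * chw G d l ^ J :=
    Polynomial.eval₂_eq_sum_range _ _
  rw [h0]
  refine HP_sum _ _ fun J _ => ?_
  by_cases hJ : 3 * J ≤ n
  · obtain ⟨h1, h2⟩ := (hN J).1 hJ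
    have h3 : IsWeightedHomogeneous (wq d) (aeval (Sum.elim xb (chy G l)) (N.coeff J) : B2 k)
        ((e : ℤ) + (n - 3 * J)) := by
      refine hom_aeval (fun _ => 1) _ _ (fun m hm => ?_) _ _ ?_
      · have g1 := h1 hm
        have g2 := h2 hm
        rw [Finsupp.weight_apply, Finsupp.sum] at g1 g2
        have g3 : ((e + (n - 3 * J) : ℕ) : ℤ) = (e : ℤ) + (n - 3 * J) := by
          push_cast [Nat.cast_sub hJ]
          ring
        rw [← g3, ← g1, ← g2, ← Finset.sum_add_distrib]
        push_cast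
        refine Finset.sum_congr rfl fun i _ => ?_
        rcases i with i | i <;> simp [wx, wy]
      · rintro (i | i)
        · exact hom_xb1 d i
        · exact hom_chy hd hG l i
    have h4 := (HP_C h3).mul ((HP_chw hd hG l).pow J)
    rwa [show (e : ℤ) + (n - 3 * J) + J * 3 = e + n by ring] at h4
  · rw [(hN J).2 (by omega), map_zero, map_zero, zero_mul]
    exact HP_zero _ _

theorem hom_N1 {G : MvPolynomial (Fin 3) k} {d : ℕ} (hd : 2 ≤ d) (hG : G.IsHomogeneous d)
    (hG0 : G ≠ 0) {n M : ℕ} {τ : ℤ} {N : R2 k} (hN : IsSec G d n τ M N) (l : Fin 3) (N1 : P2 k)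
    (h : gp G ^ M * N1 = Psi G d l N) (j : ℕ) :
    IsWeightedHomogeneous (wq d) (N1.coeff j) (τ - (3 - d) * j) := by
  obtain ⟨-, ⟨e, he, hB⟩, -⟩ := hN
  have h1 := HP_Psi hd hG hB l j
  rw [← h] at h1
  have h2 : (gp G ^ M * N1).coeff j = (aeval xb G : B2 k) ^ M * N1.coeff j := by
    unfold gp
    rw [← map_pow, Polynomial.coeff_C_mul]
  rw [h2] at h1
  have hinj : Function.Injective (aeval xb : MvPolynomial (Fin 3) k →ₐ[k] B2 k) := by
    have e : (aeval xb : MvPolynomial (Fin 3) k →ₐ[k] B2 k) = rename Sum.inl := by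
      apply MvPolynomial.algHom_ext
      intro i
      rw [aeval_X, rename_X]
      rfl
    rw [e]
    exact rename_injective _ Sum.inl_injective
  have hG1 : (aeval xb G : B2 k) ≠ 0 := fun h0 => hG0 (hinj (by rw [h0, map_zero]))
  have h3 := hom_div ((hom_xb (d := d) hG).pow M) (pow_ne_zero M hG1) h1
  have e1 : (e : ℤ) + n - (3 - d) * j - M • (d : ℤ) = τ - (3 - d) * j := by
    rw [he, nsmul_eq_mul]
    ring
  rwa [e1] at h3

end Hom

/-! ### The denominators -/

section Den

variable {k L : Type} [Field k] [Field L] [Algebra k L]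

theorem SS_of {c : Fin 3 → L} {r : ℕ} {φ : MvPolynomial (Fin 3) k} (h : φ.IsHomogeneous r) :
    aeval c φ ∈ SS (k := k) c r := Submodule.subset_span ⟨r, φ, rfl, h, rfl⟩

theorem SS_mul {c : Fin 3 → L} {r r' : ℤ} {f g : L} (hf : f ∈ SS (k := k) c r)
    (hg : g ∈ SS (k := k) c r') : f * g ∈ SS (k := k) c (r + r') := by
  have h := Submodule.mul_mem_mul hf hg
  unfold SS at h
  rw [Submodule.span_mul_span] at h
  refine Submodule.span_mono ?_ h
  rintro _ ⟨f, ⟨a, φ, ha, hφ, rfl⟩, g, ⟨b, ψ, hb, hψ, rfl⟩, rfl⟩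
  exact ⟨a + b, φ * ψ, by push_cast; rw [ha, hb], hφ.mul hψ, (map_mul _ _ _).symm⟩

theorem SS_pow {c : Fin 3 → L} {r : ℤ} {f : L} (hf : f ∈ SS (k := k) c r) (n : ℕ) :
    f ^ n ∈ SS (k := k) c (n * r) := by
  induction n with
  | zero =>
    rw [pow_zero, Nat.cast_zero, zero_mul]
    have h := SS_of (c := c) (isHomogeneous_one (Fin 3) k)
    rwa [map_one] at h
  | succ n ih =>
    rw [pow_succ]
    have := SS_mul ih hf
    rwa [show (n : ℤ) * r + r = ((n + 1 : ℕ) : ℤ) * r by push_cast; ring] at this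

/-- the coefficients have denominators powers of `p`, with the right degree; `p` has the
degree `d` -/
def Good (c : Fin 3 → L) (k : Type) [Field k] [Algebra k L] (d : ℕ) (p : L) (D : ℤ)
    (f : Polynomial L) : Prop :=
  ∃ n0 : ℕ, ∀ n1 : ℕ, n0 ≤ n1 → ∀ b : ℕ,
    p ^ n1 * f.coeff b ∈ SS (k := k) c (D + b * (d - 3) + n1 * d)

variable {c : Fin 3 → L} {d : ℕ} {p : L}

theorem Good_zero (D : ℤ) : Good c k d p D 0 :=
  ⟨0, fun n1 _ b => by rw [Polynomial.coeff_zero, mul_zero]; exact Submodule.zero_mem _⟩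

theorem Good.add {D : ℤ} {f g : Polynomial L} (hf : Good c k d p D f) (hg : Good c k d p D g) :
    Good c k d p D (f + g) := by
  obtain ⟨n, hn⟩ := hf
  obtain ⟨m, hm⟩ := hg
  refine ⟨max n m, fun n1 h b => ?_⟩
  rw [Polynomial.coeff_add, mul_add]
  exact Submodule.add_mem _ (hn n1 ((le_max_left _ _).trans h) b)
    (hm n1 ((le_max_right _ _).trans h) b)

theorem Good_sum {ι : Type} {D : ℤ} (s : Finset ι) (f : ι → Polynomial L)
    (h : ∀ i ∈ s, Good c k d p D (f i)) : Good c k d p D (∑ i ∈ s, f i) := by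
  classical
  induction s using Finset.induction_on with
  | empty => exact Good_zero D
  | insert a s ha ih =>
    rw [Finset.sum_insert ha]
    exact (h a (Finset.mem_insert_self _ _)).add
      (ih fun i hi => h i (Finset.mem_insert_of_mem hi))

theorem Good.mul {D D' : ℤ} {f g : Polynomial L} (hf : Good c k d p D f)
    (hg : Good c k d p D' g) : Good c k d p (D + D') (f * g) := by
  obtain ⟨n, hn⟩ := hf
  obtain ⟨m, hm⟩ := hg
  refine ⟨n + m, fun n1 h b => ?_⟩
  rw [Polynomial.coeff_mul, Finset.mul_sum]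
  refine Submodule.sum_mem _ fun x hx => ?_
  have hx' : x.1 + x.2 = b := Finset.HasAntidiagonal.mem_antidiagonal.1 hx
  have h1 := SS_mul (hn n le_rfl x.1) (hm (n1 - n) (by omega) x.2)
  have e1 : p ^ n * f.coeff x.1 * (p ^ (n1 - n) * g.coeff x.2) =
      p ^ n1 * (f.coeff x.1 * g.coeff x.2) := by
    have : p ^ n1 = p ^ n * p ^ (n1 - n) := by rw [← pow_add]; congr 1; omega
    rw [this]
    ring
  have e2 : D + (x.1 : ℤ) * (d - 3) + n * d + (D' + (x.2 : ℤ) * (d - 3) + ((n1 - n : ℕ) : ℤ) * d) =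
      D + D' + b * (d - 3) + n1 * d := by
    rw [← hx', Nat.cast_sub (by omega)]
    push_cast
    ring
  rwa [e1, e2] at h1

theorem Good.pow {D : ℤ} {f : Polynomial L} (hf : Good c k d p D f)
    (h1 : Good c k d p 0 1) (n : ℕ) : Good c k d p (n • D) (f ^ n) := by
  induction n with
  | zero =>
    rw [pow_zero, zero_smul]
    exact h1
  | succ n ih =>
    rw [pow_succ, succ_nsmul]
    exact ih.mul hf

theorem Good_prod {ι : Type} (s : Finset ι) (f : ι → Polynomial L) (D : ι → ℤ)
    (h1 : Good c k d p 0 1) (h : ∀ i ∈ s, Good c k d p (D i) (f i)) :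
    Good c k d p (∑ i ∈ s, D i) (∏ i ∈ s, f i) := by
  classical
  induction s using Finset.induction_on with
  | empty => exact h1
  | insert a s ha ih =>
    rw [Finset.sum_insert ha, Finset.prod_insert ha]
    exact (h a (Finset.mem_insert_self _ _)).mul
      (ih fun i hi => h i (Finset.mem_insert_of_mem hi))

theorem Good_C {D : ℤ} {f : L} (hp : p ∈ SS (k := k) c d) (n0 : ℕ)
    (h : p ^ n0 * f ∈ SS (k := k) c (D + n0 * d)) : Good c k d p D (Polynomial.C f) := by
  refine ⟨n0, fun n1 hn b => ?_⟩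
  rw [Polynomial.coeff_C]
  split_ifs with hb
  · have h1 := SS_mul (SS_pow hp (n1 - n0)) h
    have e1 : p ^ (n1 - n0) * (p ^ n0 * f) = p ^ n1 * f := by
      rw [← mul_assoc, ← pow_add]
      congr 2
      omega
    have e2 : ((n1 - n0 : ℕ) : ℤ) * d + (D + n0 * d) = D + (b : ℤ) * (d - 3) + n1 * d := by
      rw [hb, Nat.cast_sub hn]
      push_cast
      ring
    rwa [e1, e2] at h1
  · rw [mul_zero]
    exact Submodule.zero_mem _

theorem Good_CX {D : ℤ} {f : L} (hp : p ∈ SS (k := k) c d) (n0 : ℕ)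
    (h : p ^ n0 * f ∈ SS (k := k) c (D + (d - 3) + n0 * d)) :
    Good c k d p D (Polynomial.X * Polynomial.C f) := by
  refine ⟨n0, fun n1 hn b => ?_⟩
  rw [mul_comm Polynomial.X (Polynomial.C f), Polynomial.coeff_C_mul_X]
  split_ifs with hb
  · have h1 := SS_mul (SS_pow hp (n1 - n0)) h
    have e1 : p ^ (n1 - n0) * (p ^ n0 * f) = p ^ n1 * f := by
      rw [← mul_assoc, ← pow_add]
      congr 2
      omega
    have e2 : ((n1 - n0 : ℕ) : ℤ) * d + (D + (d - 3) + n0 * d) =
        D + (b : ℤ) * (d - 3) + n1 * d := by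
      rw [hb, Nat.cast_sub hn]
      push_cast
      ring
    rwa [e1, e2] at h1
  · rw [mul_zero]
    exact Submodule.zero_mem _

theorem Good_aeval {σ : Type} (P : MvPolynomial σ k) (v : σ → ℤ) (D : ℤ)
    (hP : IsWeightedHomogeneous v P D) (f : σ → Polynomial L)
    (hp : p ∈ SS (k := k) c d) (hf : ∀ i, Good c k d p (v i) (f i)) :
    Good c k d p D (aeval f P) := by
  have h1 : Good c k d p 0 1 := by
    have := Good_C (D := 0) (f := (1 : L)) hp 0 (by
      rw [pow_zero, one_mul, Nat.cast_zero, zero_mul, add_zero]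
      have h := SS_of (c := c) (isHomogeneous_one (Fin 3) k)
      rwa [map_one] at h)
    rwa [map_one] at this
  rw [aeval_def, eval₂_eq]
  refine Good_sum _ _ fun m hm => ?_
  have h2 := hP (mem_support_iff.1 hm)
  rw [Finsupp.weight_apply, Finsupp.sum] at h2
  have h3 := Good_prod m.support (fun i => f i ^ m i) (fun i => m i • v i) h1
    fun i _ => (hf i).pow h1 (m i)
  rw [h2] at h3
  have h4 : Good c k d p 0 (algebraMap k (Polynomial L) (coeff m P)) := by
    have h5 : algebraMap k (Polynomial L) (coeff m P) =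
        Polynomial.C (algebraMap k L (coeff m P)) := rfl
    rw [h5]
    refine Good_C hp 0 ?_
    rw [pow_zero, one_mul, Nat.cast_zero, zero_mul, add_zero]
    have h := SS_of (c := c) (isHomogeneous_C (Fin 3) (coeff m P))
    rwa [aeval_C] at h
  have h6 := h4.mul h3
  rwa [zero_add] at h6

end Den

theorem pf_FDN : T_FDN := by
  intro k L _ _ _ _ _ G d c hd hG hirr hgen n M τ N hN l l' N1 hN1 j b
  by_cases hg : gr G c l' = 0
  · refine ⟨1, fun n1 hn1 => ?_⟩
    rw [hg, zero_pow (by omega), mul_zero, zero_mul]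
    exact Submodule.zero_mem _
  have hG0 : G ≠ 0 := hirr.ne_zero
  have hcl : c l ≠ 0 := by
    intro h0
    have h1 : G ∣ X l := (hgen (X l)).1 (by rw [aeval_X, h0])
    obtain ⟨Q, hQ⟩ := h1
    have hQ0 : Q ≠ 0 := fun h => X_ne_zero (R := k) l (by rw [hQ, h, mul_zero])
    have h2 := totalDegree_mul_of_isDomain hG0 hQ0
    rw [← hQ, totalDegree_X, hG.1.totalDegree hG0] at h2
    omega
  have hhom := hom_N1 hd hG.1 hG0 hN l' N1 hN1 j
  have hcS : ∀ i, c i ∈ SS (k := k) c 1 := fun i => by
    have h := SS_of (c := c) (isHomogeneous_X k i)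
    rwa [aeval_X] at h
  have hgS : ∀ i, gr G c i ∈ SS (k := k) c ((d : ℤ) - 1) := fun i => by
    have h := SS_of (c := c) (hG.1.pderiv (i := i))
    rw [Nat.cast_sub (by omega), Nat.cast_one] at h
    exact h
  set g : L := (gr G c l')⁻¹ with hgdef
  set p : L := c l * gr G c l' with hpdef
  have hp : p ∈ SS (k := k) c d := by
    have h := SS_mul (hcS l) (hgS l')
    rwa [show (1 : ℤ) + (d - 1) = d by ring] at h
  set t : Fin 3 → L := fun i => cr (gr G c) (Pi.single l 1) i / c l with ht
  have htS : ∀ i, c l * t i ∈ SS (k := k) c ((d : ℤ) - 1) := by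
    intro i
    have h1 : c l * t i = cr (gr G c) (Pi.single l 1) i := by
      rw [ht]
      field_simp
    rw [h1]
    unfold cr
    have h2 : ∀ a i : Fin 3, gr G c a * (Pi.single l 1 : Fin 3 → L) i ∈
        SS (k := k) c ((d : ℤ) - 1) := by
      intro a i
      by_cases h : i = l
      · rw [h, Pi.single_eq_same, mul_one]
        exact hgS a
      · rw [Pi.single_eq_of_ne h, mul_zero]
        exact Submodule.zero_mem _
    exact Submodule.sub_mem _ (h2 _ _) (h2 _ _)
  -- the images of the variables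
  set F : Fin 3 ⊕ Fin 2 → Polynomial L := Sum.elim (fun i => Polynomial.C (c i))
    ![Polynomial.C g * (Polynomial.C (c (l' + 1)) + Polynomial.X * Polynomial.C (t (l' + 1))),
      Polynomial.C g * (Polynomial.C (c (l' + 2)) + Polynomial.X * Polynomial.C (t (l' + 2)))]
    with hF
  have hq : ∀ i, Good c k d p (2 - (d : ℤ))
      (Polynomial.C g * (Polynomial.C (c i) + Polynomial.X * Polynomial.C (t i))) := by
    intro i
    have e : Polynomial.C g * (Polynomial.C (c i) + Polynomial.X * Polynomial.C (t i)) =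
        Polynomial.C (g * c i) + Polynomial.X * Polynomial.C (g * t i) := by
      rw [map_mul, map_mul]
      ring
    rw [e]
    refine Good.add (Good_C hp 1 ?_) (Good_CX hp 1 ?_)
    · have h1 : p ^ 1 * (g * c i) = c l * c i := by
        rw [hpdef, hgdef]
        field_simp
      rw [h1]
      have h := SS_mul (hcS l) (hcS i)
      rwa [show (1 : ℤ) + 1 = 2 - d + (1 : ℕ) * d by push_cast; ring] at h
    · have h1 : p ^ 1 * (g * t i) = c l * t i := by
        rw [hpdef, hgdef]
        field_simp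
      rw [h1]
      have h := htS i
      rwa [show (d : ℤ) - 1 = 2 - d + (d - 3) + (1 : ℕ) * d by push_cast; ring] at h
  have hFG : ∀ i, Good c k d p (wq d i) (F i) := by
    rintro (i | i)
    · refine Good_C hp 0 ?_
      rw [pow_zero, one_mul, Nat.cast_zero, zero_mul, add_zero]
      exact hcS i
    · fin_cases i
      · exact hq (l' + 1)
      · exact hq (l' + 2)
  obtain ⟨n0, hn0⟩ := Good_aeval (N1.coeff j) (wq d) _ hhom F hp hFG
  -- the coefficient
  have hcoef : (fe G l' c t (Pi.single l' g) N1).coeff j = aeval F (N1.coeff j) := by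
    have h1 : Polynomial.C (Polynomial.C g) * fs3 G c t (Pi.single l' g) l' =
        (Polynomial.X : Polynomial (Polynomial L)) := by
      have h2 : ∀ a : Fin 3 → L, cr a (Pi.single l' g) l' = 0 := by
        intro a
        unfold cr
        have h3 : l' + 2 ≠ l' := by fin_cases l' <;> decide
        have h4 : l' + 1 ≠ l' := by fin_cases l' <;> decide
        rw [Pi.single_eq_of_ne h3, Pi.single_eq_of_ne h4, mul_zero, mul_zero, sub_zero]
      unfold fs3 li
      rw [h2, h2]
      simp only [map_zero, mul_zero, add_zero, sub_zero]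
      have h5 : (Polynomial.C (Polynomial.C g) : Polynomial (Polynomial L)) *
          Polynomial.C (Polynomial.C (gr G c l')) = 1 := by
        rw [← map_mul, ← map_mul, hgdef, inv_mul_cancel₀ hg, map_one, map_one]
      calc Polynomial.C (Polynomial.C g) * (Polynomial.X * Polynomial.C (Polynomial.C (gr G c l')))
          = Polynomial.X * ((Polynomial.C (Polynomial.C g) : Polynomial (Polynomial L)) *
            Polynomial.C (Polynomial.C (gr G c l'))) := by ring
        _ = Polynomial.X := by rw [h5, mul_one]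
    have h6 : (aeval (Sum.elim (li c) ![Polynomial.C (Polynomial.C g) * fq c t (l' + 1),
        Polynomial.C (Polynomial.C g) * fq c t (l' + 2)]) :
        B2 k →ₐ[k] Polynomial (Polynomial L)) =
        (Polynomial.CAlgHom (R := k) (A := Polynomial L)).comp (aeval F) := by
      apply MvPolynomial.algHom_ext
      rintro (i | i)
      · rw [aeval_X, AlgHom.comp_apply, aeval_X]
        rfl
      · rw [aeval_X, AlgHom.comp_apply, aeval_X]
        fin_cases i
        · show Polynomial.C (Polynomial.C g) * fq c t (l' + 1) = Polynomial.C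
            (Polynomial.C g * (Polynomial.C (c (l' + 1)) + Polynomial.X * Polynomial.C (t (l' + 1))))
          unfold fq li
          simp only [map_mul, map_add]
        · show Polynomial.C (Polynomial.C g) * fq c t (l' + 2) = Polynomial.C
            (Polynomial.C g * (Polynomial.C (c (l' + 2)) + Polynomial.X * Polynomial.C (t (l' + 2))))
          unfold fq li
          simp only [map_mul, map_add]
    have h7 : fe G l' c t (Pi.single l' g) N1 = ∑ J ∈ Finset.range (N1.natDegree + 1),
        Polynomial.C (aeval F (N1.coeff J)) * Polynomial.X ^ J := by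
      have h8 : fe G l' c t (Pi.single l' g) N1 = ∑ J ∈ Finset.range (N1.natDegree + 1),
          (aeval (Sum.elim (li c) ![Polynomial.C (Polynomial.C g) * fq c t (l' + 1),
            Polynomial.C (Polynomial.C g) * fq c t (l' + 2)]) :
            B2 k →ₐ[k] Polynomial (Polynomial L)) (N1.coeff J) *
          (Polynomial.C (Polynomial.C g) * fs3 G c t (Pi.single l' g) l') ^ J :=
        Polynomial.eval₂_eq_sum_range _ _
      rw [h8]
      refine Finset.sum_congr rfl fun J _ => ?_
      rw [h1, h6]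
      rfl
    rw [h7, Polynomial.finsetSum_coeff]
    simp only [Polynomial.coeff_C_mul_X_pow]
    rw [Finset.sum_ite_eq]
    split_ifs with h9
    · rfl
    · rw [Finset.mem_range, not_lt] at h9
      rw [Polynomial.coeff_eq_zero_of_natDegree_lt (by omega), map_zero]
  refine ⟨n0, fun n1 hn1 => ?_⟩
  rw [hcoef]
  have h := hn0 n1 hn1 b
  have e1 : p ^ n1 * (aeval F (N1.coeff j)).coeff b =
      c l ^ n1 * gr G c l' ^ n1 * (aeval F (N1.coeff j)).coeff b := by
    rw [hpdef, mul_pow]
  have e2 : τ - (3 - (d : ℤ)) * j + b * (d - 3) + n1 * d =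
      τ + ((b : ℤ) + j) * (d - 3) + n1 + n1 * ((d : ℤ) - 1) := by ring
  rwa [e1, e2] at h

end Pool.Agent.H54.SM
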