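import Mathlib

/-!
# MP_347b49_nt, special moduli: real estimates for the row SRdz
-/

set_option autoImplicit false

open Filter Topology

namespace Pool.Agent.H54.SM

/-- polynomials against exponentials -/
theorem SRdz_ev (K : ℝ) (j : ℕ) : ∀ᶠ y : ℝ in atTop, K * y ^ j ≤ Real.exp (y / 8) := by
  have h3 := (Real.tendsto_pow_mul_exp_neg_atTop_nhds_zero j).comp
      (tendsto_id.atTop_div_const (show (0 : ℝ) < 8 by norm_num))
  have h4 := h3.const_mul (K * (8 : ℝ) ^ j)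
  rw [mul_zero] at h4
  filter_upwards [h4.eventually (gt_mem_nhds one_pos)] with y hy
  simp only [Function.comp, id] at hy
  have h5 : K * 8 ^ j * ((y / 8) ^ j * Real.exp (-(y / 8))) * Real.exp (y / 8) = K * y ^ j := by
    rw [div_pow, Real.exp_neg]
    have h6 := (Real.exp_pos (y / 8)).ne'
    field_simp
  rw [← h5]
  have h7 := mul_le_mul_of_nonneg_right hy.le (Real.exp_pos (y / 8)).le
  rwa [one_mul] at h7

theorem SRdz_real (n D ε₁ K0 Kw C C3 C5 C00 : ℝ) (E E' A k : ℕ) (hn : 1 ≤ n) (hD : 1 ≤ D)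
    (hA : 1 ≤ A) (h1 : 0 < ε₁) (hK0 : 0 ≤ K0) (hKw : 0 ≤ Kw) (hC : 0 ≤ C)
    (hC3 : 0 ≤ C3) (hC5 : 0 ≤ C5) :
    ∃ y0 : ℝ, 1 ≤ y0 ∧ ∀ y T W : ℝ, y0 ≤ y → y ^ (A + 1) / 2 ≤ T → T ≤ 2 * y ^ (A + 1) →
      0 ≤ W → W ≤ Kw * T →
      C00 ≤ T ∧ 16 * E * y < T / 2 ∧
      K0 * W ^ k * (C * (C3 * (1 + 16 * E * y) ^ E' + C5)) ≤ Real.exp (y / 8) ∧
      K0 * W ^ k * (C5 * C * D * Real.exp (E * y)) ≤ Real.exp (5 * ε₁ / 8 * (n * T)) ∧
      K0 * W ^ k * (C5 * C * D * Real.exp (E * y)) ≤ Real.exp (T / 16) := by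
  have hE0 : (0 : ℝ) ≤ E := Nat.cast_nonneg E
  have hev : ∀ᶠ y : ℝ in atTop, 1 ≤ y ∧ 2 * C00 ≤ y ∧ 64 * E < y ∧
      8 * ((E : ℝ) + 1) * 8 / ε₁ ≤ y ∧ 32 * ((E : ℝ) + 1) ≤ y ∧
      K0 * (2 * Kw) ^ k * (C * (C3 * (1 + 16 * E) ^ E' + C5)) * y ^ ((A + 1) * k + E') ≤
        Real.exp (y / 8) ∧
      K0 * (2 * Kw) ^ k * (C5 * C * D) * y ^ ((A + 1) * k) ≤ Real.exp (y / 8) := by
    filter_upwards [eventually_ge_atTop 1, eventually_ge_atTop (2 * C00),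
      eventually_gt_atTop (64 * (E : ℝ)), eventually_ge_atTop (8 * ((E : ℝ) + 1) * 8 / ε₁),
      eventually_ge_atTop (32 * ((E : ℝ) + 1)), SRdz_ev _ _, SRdz_ev _ _]
      with y a1 a2 a3 a4 a5 a6 a7
    exact ⟨a1, a2, a3, a4, a5, a6, a7⟩
  obtain ⟨y0, hy0⟩ := eventually_atTop.1 hev
  refine ⟨max y0 1, le_max_right _ _, ?_⟩
  intro y T W hy hT1 hT2 hW0 hW
  obtain ⟨a1, a2, a3, a4, a5, a6, a7⟩ := hy0 y ((le_max_left _ _).trans hy)
  have hy0' : 0 < y := by linarith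
  have p1 : y ≤ y ^ (A + 1) := le_self_pow₀ a1 (by omega)
  have p2 : y ^ 2 ≤ y ^ (A + 1) := pow_le_pow_right₀ a1 (by omega)
  have hT : y ^ 2 / 2 ≤ T := by linarith
  have hT0 : 0 < T := lt_of_lt_of_le (by positivity) hT
  have hnT : T ≤ n * T := le_mul_of_one_le_left hT0.le hn
  have hWy : W ≤ 2 * Kw * y ^ (A + 1) := by
    have := mul_le_mul_of_nonneg_left hT2 hKw
    linarith
  have hWk : W ^ k ≤ (2 * Kw) ^ k * y ^ ((A + 1) * k) := by
    rw [pow_mul, ← mul_pow]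
    exact pow_le_pow_left₀ hW0 hWy k
  have hL : (1 + 16 * E * y) ^ E' ≤ (1 + 16 * (E : ℝ)) ^ E' * y ^ E' := by
    rw [← mul_pow]
    apply pow_le_pow_left₀ (by positivity)
    linarith
  have hyE : 1 ≤ y ^ E' := one_le_pow₀ a1
  have b1 : K0 * W ^ k * (C5 * C * D * Real.exp (E * y)) ≤ Real.exp ((E + 1) * y) := by
    calc K0 * W ^ k * (C5 * C * D * Real.exp (E * y)) ≤
          K0 * ((2 * Kw) ^ k * y ^ ((A + 1) * k)) * (C5 * C * D * Real.exp (E * y)) := by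
          gcongr
      _ = (K0 * (2 * Kw) ^ k * (C5 * C * D) * y ^ ((A + 1) * k)) * Real.exp (E * y) := by ring
      _ ≤ Real.exp (y / 8) * Real.exp (E * y) :=
          mul_le_mul_of_nonneg_right a7 (Real.exp_pos _).le
      _ = Real.exp (y / 8 + E * y) := (Real.exp_add _ _).symm
      _ ≤ Real.exp ((E + 1) * y) := by
          apply Real.exp_le_exp.mpr
          linarith
  refine ⟨by linarith, ?_, ?_, b1.trans ?_, b1.trans ?_⟩
  · have h5 : 64 * E * y < y * y := mul_lt_mul_of_pos_right a3 hy0'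
    linarith
  · calc K0 * W ^ k * (C * (C3 * (1 + 16 * E * y) ^ E' + C5)) ≤
          K0 * ((2 * Kw) ^ k * y ^ ((A + 1) * k)) *
            (C * (C3 * ((1 + 16 * (E : ℝ)) ^ E' * y ^ E') + C5 * y ^ E')) := by
          have h5 : C5 ≤ C5 * y ^ E' := le_mul_of_one_le_right hC5 hyE
          gcongr
      _ = K0 * (2 * Kw) ^ k * (C * (C3 * (1 + 16 * E) ^ E' + C5)) *
          y ^ ((A + 1) * k + E') := by
          rw [pow_add]
          ring
      _ ≤ _ := a6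
  · apply Real.exp_le_exp.mpr
    rw [div_le_iff₀ h1] at a4
    have h5 : 5 * ε₁ / 8 * (y ^ 2 / 2) ≤ 5 * ε₁ / 8 * (n * T) :=
      mul_le_mul_of_nonneg_left (by linarith) (by positivity)
    have h6 : 8 * ((E : ℝ) + 1) * 8 * y ≤ y * ε₁ * y := mul_le_mul_of_nonneg_right a4 hy0'.le
    have h7 : 0 ≤ ((E : ℝ) + 1) * y := by positivity
    linarith
  · apply Real.exp_le_exp.mpr
    have h6 : 32 * ((E : ℝ) + 1) * y ≤ y * y := mul_le_mul_of_nonneg_right a5 hy0'.le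
    have h7 : 0 ≤ ((E : ℝ) + 1) * y := by positivity
    linarith

/-- the case of many primes -/
theorem SRdz_fin1 {G ncd ncq ucd nmd pdd w C S3 C5 Yh x8 N8 P34 : ℝ} (hG : 0 ≤ G)
    (hncd : 0 ≤ ncd) (hncq : 0 ≤ ncq) (hnmd : 0 < nmd) (hpd : 0 < pdd)
    (hS3 : 0 ≤ S3) (hC5 : 0 ≤ C5) (hYh : 0 ≤ Yh)
    (h1 : w ≤ S3 + C5 * (1 + Yh * ucd / nmd)) (h2 : ncd * ucd ≤ C * nmd)
    (h3 : ncd * pdd ≤ C * ncq) (h4 : G * (C * (S3 + C5)) ≤ x8)
    (h5 : G * (C5 * C * Yh) ≤ N8 * ncq) (h6 : 1 / pdd ≤ P34) (hx8 : 0 ≤ x8) :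
    ncd * (G * w) ≤ ncq * (x8 * P34 + N8) := by
  have e1 : ncd ≤ C * ncq * (1 / pdd) := by
    rw [mul_one_div, le_div_iff₀ hpd]
    exact h3
  have e2 : ncd * ucd / nmd ≤ C := by
    rw [div_le_iff₀ hnmd]
    exact h2
  calc ncd * (G * w) ≤ ncd * (G * (S3 + C5 * (1 + Yh * ucd / nmd))) :=
        mul_le_mul_of_nonneg_left (mul_le_mul_of_nonneg_left h1 hG) hncd
    _ = G * (S3 + C5) * ncd + G * (C5 * Yh) * (ncd * ucd / nmd) := by
        field_simp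
        ring
    _ ≤ G * (S3 + C5) * (C * ncq * (1 / pdd)) + G * (C5 * Yh) * C := by
        apply add_le_add
        · exact mul_le_mul_of_nonneg_left e1 (by positivity)
        · exact mul_le_mul_of_nonneg_left e2 (by positivity)
    _ = G * (C * (S3 + C5)) * (1 / pdd) * ncq + G * (C5 * C * Yh) := by ring
    _ ≤ x8 * P34 * ncq + N8 * ncq := by
        apply add_le_add _ h5
        apply mul_le_mul_of_nonneg_right _ hncq
        exact mul_le_mul h4 h6 (by positivity) hx8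
    _ = ncq * (x8 * P34 + N8) := by ring

/-- the case of few primes -/
theorem SRdz_fin2 {G ncd ncq ucd nmd pdd w C C5 Ye Y12 Ex x8 N8 P34 : ℝ} (hG : 0 ≤ G)
    (hncd : 0 ≤ ncd) (hncq : 0 ≤ ncq) (hnmd : 0 < nmd) (hpd : 0 < pdd)
    (hC5 : 0 ≤ C5) (hYe : 0 ≤ Ye) (hY12 : 0 ≤ Y12) (hucd : 0 ≤ ucd)
    (h1 : w ≤ C5 * Ye * ucd * (1 + Y12 / nmd)) (h2 : ncd * ucd ≤ C * nmd)
    (h3 : ncd * pdd ≤ C * ncq) (h4 : G * (C5 * C * Ye * Ex) / pdd ≤ x8 * P34)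
    (h5 : G * (C5 * C * (Ye * Y12)) ≤ N8 * ncq) (h7 : ucd ≤ Ex) :
    ncd * (G * w) ≤ ncq * (x8 * P34 + N8) := by
  have e1 : ncd ≤ C * ncq * (1 / pdd) := by
    rw [mul_one_div, le_div_iff₀ hpd]
    exact h3
  have e2 : ncd * ucd / nmd ≤ C := by
    rw [div_le_iff₀ hnmd]
    exact h2
  calc ncd * (G * w) ≤ ncd * (G * (C5 * Ye * ucd * (1 + Y12 / nmd))) :=
        mul_le_mul_of_nonneg_left (mul_le_mul_of_nonneg_left h1 hG) hncd
    _ = G * (C5 * Ye) * (ucd * ncd) + G * (C5 * (Ye * Y12)) * (ncd * ucd / nmd) := by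
        field_simp
    _ ≤ G * (C5 * Ye) * (Ex * (C * ncq * (1 / pdd))) + G * (C5 * (Ye * Y12)) * C := by
        apply add_le_add
        · apply mul_le_mul_of_nonneg_left _ (by positivity)
          exact mul_le_mul h7 e1 hncd (hucd.trans h7)
        · exact mul_le_mul_of_nonneg_left e2 (by positivity)
    _ = G * (C5 * C * Ye * Ex) / pdd * ncq + G * (C5 * C * (Ye * Y12)) := by ring
    _ ≤ x8 * P34 * ncq + N8 * ncq := by
        apply add_le_add _ h5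
        exact mul_le_mul_of_nonneg_right h4 hncq
    _ = ncq * (x8 * P34 + N8) := by ring

theorem SRdz_par {n T a κ C₀ : ℝ} (hn1 : 1 ≤ n) (h1 : 0 < κ) (h2 : κ ≤ 1) (hC₀ : 0 < C₀)
    (hT : 16 * C₀ + 1 + |a| ≤ T) :
    0 < T ∧ 0 ≤ a + n * T ∧ 0 ≤ 1 + (a + n * T) + κ * (n * T) ∧
      1 + (a + n * T) + κ * (n * T) ≤ (1 + |a| + 2 * n) * T ∧ C₀ / T ≤ 1 / 16 := by
  have ha := abs_nonneg a
  have hT0 : 0 < T := by linarith
  have hT1 : 1 ≤ T := by linarith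
  have hnT : T ≤ n * T := le_mul_of_one_le_left hT0.le hn1
  have h3 := neg_abs_le a
  have h3' := le_abs_self a
  have h4 : 0 ≤ κ * (n * T) := by positivity
  have h5 : κ * (n * T) ≤ 1 * (n * T) := mul_le_mul_of_nonneg_right h2 (by linarith)
  have h6 : |a| ≤ |a| * T := le_mul_of_one_le_right ha hT1
  have h7 : (1 + |a| + 2 * n) * T = T + |a| * T + 2 * (n * T) := by ring
  refine ⟨hT0, by linarith, by linarith, ?_, ?_⟩
  · rw [h7]
    linarith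
  · rw [div_le_div_iff₀ hT0 (by norm_num)]
    linarith

theorem SRdz_end {n D ε₁ ε CN C5 G T y S3 ncd ncq ucd nmd pdd w Y c Ex : ℝ}
    (hn0 : 0 < n) (hD1 : 1 ≤ D) (h1 : 0 < ε₁) (hT0 : 0 < T) (hy : 0 ≤ y)
    (hε0 : 0 < ε) (hε1 : ε ≤ 1 / 64) (hε2 : ε ≤ ε₁ / 8) (hε3 : ε ≤ 1 / (32 * n))
    (hY0 : 0 < Y) (hYe : Y = c ^ 2 * Real.exp ((2 - 2 * ε₁) * (n * T))) (hcD : c ^ 2 ≤ D)
    (hG0 : 0 ≤ G) (hncd0 : 0 ≤ ncd) (hncq0 : 0 ≤ ncq) (hnmd : 0 < nmd) (hpd1 : 1 ≤ pdd)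
    (hS3 : 0 ≤ S3) (hC50 : 0 ≤ C5) (hCN0 : 0 ≤ CN) (hucd0 : 0 ≤ ucd) (hEx : 0 ≤ Ex)
    (hNE : Real.exp (n * T) ≤ Ex * ncq) (huc : ucd ≤ Ex)
    (hncuc : ncd * ucd ≤ CN * nmd) (hncpd : ncd * pdd ≤ CN * ncq)
    (g2 : G * (CN * (S3 + C5)) ≤ Real.exp (y / 8))
    (g3 : G * (C5 * CN * D * Ex) ≤ Real.exp (5 * ε₁ / 8 * (n * T)))
    (g4 : G * (C5 * CN * D * Ex) ≤ Real.exp (T / 16))
    (hw : w ≤ S3 + C5 * (1 + Y ^ (1 / 2 + ε) * ucd / nmd) ∨
      (Real.exp (T / 2) ≤ pdd ∧ w ≤ C5 * Y ^ ε * ucd * (1 + Y ^ (1 / 2 : ℝ) / nmd))) :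
    ncd * (G * w) ≤ ncq * (Real.exp (y / 8) * pdd ^ (-(3 / 4) : ℝ) +
      Real.exp (-(ε₁ / 8 * (n * T)))) := by
  have hnT0 : 0 < n * T := by positivity
  have hpd0 : 0 < pdd := by linarith
  have hYpow : ∀ e : ℝ, 0 ≤ e → e ≤ 1 → Y ^ e ≤
      D * Real.exp (e * (2 - 2 * ε₁) * (n * T)) := by
    intro e he0 he1
    rw [hYe, Real.mul_rpow (by positivity) (Real.exp_pos _).le, ← Real.exp_mul]
    apply mul_le_mul
    · calc (c ^ 2) ^ e ≤ D ^ e := Real.rpow_le_rpow (by positivity) hcD he0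
        _ ≤ D ^ (1 : ℝ) := Real.rpow_le_rpow_of_exponent_le hD1 he1
        _ = D := Real.rpow_one _
    · apply le_of_eq
      congr 1
      ring
    · exact (Real.exp_pos _).le
    · linarith
  have hYh : Y ^ (1 / 2 + ε) ≤ D * Real.exp ((1 - 3 * ε₁ / 4) * (n * T)) := by
    refine (hYpow (1 / 2 + ε) (by linarith) (by linarith)).trans ?_
    apply mul_le_mul_of_nonneg_left _ (by linarith)
    apply Real.exp_le_exp.mpr
    apply mul_le_mul_of_nonneg_right _ hnT0.le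
    have h4 : (1 / 2 + ε) * (2 - 2 * ε₁) = 1 - ε₁ + 2 * ε - 2 * (ε₁ * ε) := by ring
    have h5 : 0 ≤ ε₁ * ε := by positivity
    rw [h4]
    linarith
  have hYh0 : 0 ≤ Y ^ (1 / 2 + ε) := Real.rpow_nonneg hY0.le _
  have hG5 : G * (C5 * CN * Y ^ (1 / 2 + ε)) ≤ Real.exp (-(ε₁ / 8 * (n * T))) * ncq := by
    calc G * (C5 * CN * Y ^ (1 / 2 + ε)) ≤
          G * (C5 * CN * (D * Real.exp ((1 - 3 * ε₁ / 4) * (n * T)))) := by
          gcongr
      _ = G * (C5 * CN * D) * Real.exp (-(3 * ε₁ / 4 * (n * T))) * Real.exp (n * T) := by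
          have h5 : Real.exp ((1 - 3 * ε₁ / 4) * (n * T)) =
              Real.exp (-(3 * ε₁ / 4 * (n * T))) * Real.exp (n * T) := by
            rw [← Real.exp_add]
            congr 1
            ring
          rw [h5]
          ring
      _ ≤ G * (C5 * CN * D) * Real.exp (-(3 * ε₁ / 4 * (n * T))) * (Ex * ncq) := by
          apply mul_le_mul_of_nonneg_left hNE
          positivity
      _ = (G * (C5 * CN * D * Ex)) * Real.exp (-(3 * ε₁ / 4 * (n * T))) * ncq := by ring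
      _ ≤ Real.exp (5 * ε₁ / 8 * (n * T)) * Real.exp (-(3 * ε₁ / 4 * (n * T))) * ncq := by
          apply mul_le_mul_of_nonneg_right _ hncq0
          exact mul_le_mul_of_nonneg_right g3 (Real.exp_pos _).le
      _ = Real.exp (-(ε₁ / 8 * (n * T))) * ncq := by
          rw [← Real.exp_add]
          congr 2
          ring
  rcases hw with hwle | ⟨hpdT, hwle⟩
  · have hP34 : 1 / pdd ≤ pdd ^ (-(3 / 4) : ℝ) := by
      rw [one_div, ← Real.rpow_neg_one]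
      exact Real.rpow_le_rpow_of_exponent_le hpd1 (by norm_num)
    exact SRdz_fin1 hG0 hncd0 hncq0 hnmd hpd0 hS3 hC50 hYh0 hwle hncuc
      hncpd g2 hG5 hP34 (Real.exp_pos _).le
  · have hsplit : Y ^ ε * Y ^ (1 / 2 : ℝ) = Y ^ (1 / 2 + ε) := by
      rw [← Real.rpow_add hY0, add_comm]
    refine SRdz_fin2 hG0 hncd0 hncq0 hnmd hpd0 hC50 (Real.rpow_nonneg hY0.le _)
      (Real.rpow_nonneg hY0.le _) hucd0 hwle hncuc hncpd (Ex := Ex) ?_ ?_ huc
    · have hYε : Y ^ ε ≤ D * Real.exp (T / 16) := by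
        refine (hYpow ε hε0.le (by linarith)).trans ?_
        apply mul_le_mul_of_nonneg_left _ (by linarith)
        apply Real.exp_le_exp.mpr
        have h5 : ε * n ≤ 1 / 32 := by
          calc ε * n ≤ 1 / (32 * n) * n := mul_le_mul_of_nonneg_right hε3 hn0.le
            _ = 1 / 32 := by field_simp
        have h6 : ε * (2 - 2 * ε₁) * (n * T) = 2 * (ε * n) * T - 2 * ε₁ * (ε * n * T) := by ring
        have h7 : 0 ≤ 2 * ε₁ * (ε * n * T) := by positivity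
        have h8 : 2 * (ε * n) * T ≤ 2 * (1 / 32) * T := by gcongr
        linarith
      have hP4 : Real.exp (T / 8) ≤ pdd ^ (1 / 4 : ℝ) := by
        calc Real.exp (T / 8) = Real.exp (T / 2) ^ (1 / 4 : ℝ) := by
              rw [← Real.exp_mul]
              congr 1
              ring
          _ ≤ pdd ^ (1 / 4 : ℝ) :=
            Real.rpow_le_rpow (Real.exp_pos _).le hpdT (by norm_num)
      have hx81 : 1 ≤ Real.exp (y / 8) := Real.one_le_exp (by linarith)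
      have hpp : pdd ^ (1 / 4 : ℝ) / pdd = pdd ^ (-(3 / 4) : ℝ) := by
        rw [div_eq_mul_inv, ← Real.rpow_neg_one pdd, ← Real.rpow_add hpd0]
        norm_num
      calc G * (C5 * CN * Y ^ ε * Ex) / pdd ≤
            G * (C5 * CN * (D * Real.exp (T / 16)) * Ex) / pdd := by
            gcongr
        _ = (G * (C5 * CN * D * Ex)) * Real.exp (T / 16) / pdd := by ring
        _ ≤ Real.exp (T / 16) * Real.exp (T / 16) / pdd := by
            gcongr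
        _ = Real.exp (T / 8) / pdd := by
            rw [← Real.exp_add]
            congr 2
            ring
        _ ≤ pdd ^ (1 / 4 : ℝ) / pdd := by
            gcongr
        _ = pdd ^ (-(3 / 4) : ℝ) := hpp
        _ ≤ Real.exp (y / 8) * pdd ^ (-(3 / 4) : ℝ) :=
            le_mul_of_one_le_left (Real.rpow_nonneg hpd0.le _) hx81
    · rw [hsplit]
      exact hG5

end Pool.Agent.H54.SM
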