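import Pool.Agent.H20.SM.TZ
import Pool.Agent.H49.CV.CX
import Pool.Agent.H96.CV.LS
import Pool.Agent.H88.SM.SRq
import Pool.Agent.H54.SM.SRdzA

/-!
# MP_347b49_nt, special moduli: the relations modulo a proper divisor of `q`, with shifts
-/

set_option autoImplicit false

open NumberField NumberField.InfinitePlace Complex Filter Topology MeasureTheory

namespace Pool.Agent.H54.SM

open Pool.Agent.H28.RC Pool.Agent.H25.HK Pool.Agent.H37.CV Pool.Agent.H65.CRZ Pool.Agent.H65.CRG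
open Pool.Agent.H20.SM Pool.Agent.H88.SM

open scoped Classical in
/-- the weights of the large sets vanish -/
theorem SRdz_xS_eq_zero {α : Type} (N : α → ℝ) (A S : Finset α) (M : ℝ)
    (h : ∀ T : Finset α, M < nS N S * nS N T) : xS N A M S = 0 := by
  unfold xS
  rw [Finset.sum_eq_zero, mul_zero, zero_div]
  intro T hT
  exact absurd (Finset.mem_filter.1 hT).2.2 (not_le.2 (h T))

section

variable {K : Type} [Field K] [NumberField K]

/-- the weights are bounded by one -/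
theorem SRdz_abs_xw_le {M : ℝ} (hM : 1 ≤ M) (S : Finset (PrI K)) : |xw K M S| ≤ 1 := by
  by_cases hS : S ⊆ PM K M
  · exact (Pool.Agent.H49.CV.pf_CX (PrI K) np (PM K M) M Pool.Agent.H96.CV.two_le_np hM).2.2 S hS
  · obtain ⟨P, hP, hPM⟩ := Finset.not_subset.1 hS
    have h1 : M < np P := by
      by_contra h
      exact hPM (Pool.Agent.H96.CV.mem_PM.2 (not_lt.1 h))
    have h2 : np P ≤ nS np S := by
      classical
      unfold nS
      rw [← Finset.mul_prod_erase S np hP]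
      have h3 : 1 ≤ ∏ x ∈ S.erase P, np x := Pool.Agent.H96.CV.one_le_nS (S.erase P)
      have h4 := Pool.Agent.H96.CV.np_pos P
      nlinarith
    have h3 : xw K M S = 0 := by
      refine SRdz_xS_eq_zero np _ S M fun T => ?_
      have h4 : 1 ≤ nS np T := Pool.Agent.H96.CV.one_le_nS T
      nlinarith
    rw [h3, abs_zero]
    exact zero_le_one

/-- the coefficients of the mollifier -/
theorem SRdz_norm_cu_le {M : ℝ} (hM : 1 ≤ M) (u : ℝ) (S : Finset (PrI K)) :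
    ‖cu K M u S‖ ≤ nS np S ^ (-(1 / 2) : ℝ) := by
  have h1 : 0 < nS np S := Pool.Agent.H96.CV.nS_pos S
  unfold cu
  rw [norm_mul, Complex.norm_real, Real.norm_eq_abs, Complex.norm_cpow_eq_rpow_re_of_pos h1]
  have h2 : (-(1 / 2 + (u : ℂ) * I)).re = -(1 / 2) := by
    simp
  rw [h2]
  have h3 := mul_le_mul_of_nonneg_right (SRdz_abs_xw_le hM S)
    (Real.rpow_nonneg h1.le (-(1 / 2) : ℝ))
  rwa [one_mul] at h3

end

/-- the points with a small shift -/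
theorem SRdz_shift {δ : ℝ} (hδ : δ ≤ 1 / 8) (α β : ℂ) (u : ℝ) (hα : ‖α‖ ≤ δ) (hβ : ‖β‖ ≤ δ) :
    |(1 / 2 + α + u * I : ℂ).re - 1 / 2| ≤ δ ∧ |(1 / 2 + β - u * I : ℂ).re - 1 / 2| ≤ δ ∧
    1 + |(1 / 2 + α + u * I : ℂ).im| + |(1 / 2 + β - u * I : ℂ).im| ≤ 3 * (1 + |u|) := by
  have h1 : (1 / 2 + α + u * I : ℂ).re = 1 / 2 + α.re := by simp
  have h2 : (1 / 2 + β - u * I : ℂ).re = 1 / 2 + β.re := by simp
  have h3 : (1 / 2 + α + u * I : ℂ).im = α.im + u := by simp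
  have h4 : (1 / 2 + β - u * I : ℂ).im = β.im - u := by simp
  rw [h1, h2, h3, h4]
  refine ⟨?_, ?_, ?_⟩
  · rw [add_sub_cancel_left]
    exact (Complex.abs_re_le_norm α).trans hα
  · rw [add_sub_cancel_left]
    exact (Complex.abs_re_le_norm β).trans hβ
  · have h5 := abs_add_le α.im u
    have h6 := abs_sub β.im u
    have h7 := (Complex.abs_im_le_norm α).trans hα
    have h8 := (Complex.abs_im_le_norm β).trans hβ
    have h9 := abs_nonneg u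
    linarith

section

variable {K : Type} [Field K] [NumberField K]

omit [NumberField K] in
theorem SRdz_pd (q : ℕ) (hq : Squarefree q) (d : Ideal (𝓞 K)) :
    pd q d * (qd q d : ℝ) = q ∧ 1 ≤ pd q d := by
  classical
  constructor
  · have h1 : Pd q d ⊆ q.primeFactors := by
      unfold Pd
      exact Finset.filter_subset _ _
    unfold pd qd
    rw [← Nat.cast_prod, ← Nat.cast_mul, mul_comm]
    congr 1
    rw [Finset.prod_sdiff h1]
    exact Nat.prod_primeFactors_of_squarefree hq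
  · unfold pd
    have h2 : ∀ p ∈ Pd q d, (1 : ℝ) ≤ (p : ℝ) := by
      intro p hp
      have h3 : p ∈ q.primeFactors := by
        unfold Pd at hp
        exact (Finset.mem_filter.1 hp).1
      exact_mod_cast (Nat.prime_of_mem_primeFactors h3).one_lt.le
    calc (1 : ℝ) = ∏ _p ∈ Pd q d, (1 : ℝ) := by simp
      _ ≤ ∏ p ∈ Pd q d, (p : ℝ) :=
        Finset.prod_le_prod (fun _ _ => zero_le_one) h2

end

theorem SRdz_many (hNCG : T_NCG) {F : Type} [Field F] [NumberField F] [IsTotallyComplex F]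
    [IsGalois ℚ F] {C3 Ca C5 ε Y x y : ℝ} {E' A q : ℕ} {E : ℝ} {d : Ideal (𝓞 F)}
    {X : Finset (Ideal (𝓞 F) × Ideal (𝓞 F))}
    (hSNO : ∀ (H : ℝ) (X : Finset (Ideal (𝓞 F) × Ideal (𝓞 F))), 1 ≤ H →
      (∀ p ∈ X, p.1 ≠ ⊥ ∧ p.2 ≠ ⊥ ∧ Ideal.absNorm p.1 = Ideal.absNorm p.2 ∧ nm p.1 ≤ H) →
      ∑ p ∈ X, wt p * (1 + Real.log (nm p.1 * nm p.2)) ^ 2 ≤ C3 * (1 + Real.log H) ^ E')
    (hCHT : ∀ (L Y : ℝ) (X : Finset (Ideal (𝓞 F) × Ideal (𝓞 F))), qi F q ≠ ⊥ → qi F q ≤ d →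
      2 ≤ L → 1 ≤ Y → (uc d : ℝ) ≤ L ^ (1 / 16 : ℝ) →
      (∀ p ∈ X, p ∈ CP (qi F q) d ∧ L ≤ nm p.1 * nm p.2) →
      ∑ p ∈ X, wt p * min 1 ((Y / (nm p.1 * nm p.2)) ^ 2) ≤
        Ca * (L ^ (-(1 / 4) : ℝ) + Y ^ (1 / 2 + ε) * uc d / nm d))
    (hq : Sp F A x q) (hqd : qi F q ≤ d) (hmb : qi F q ≠ ⊥) (hE' : 1 ≤ E) (hy1 : 1 ≤ y)
    (hY1 : 1 ≤ Y) (hC5a : Ca ≤ C5) (hCa : 0 ≤ Ca) (hX : ∀ p ∈ X, p ∈ CP (qi F q) d)
    (hLq : Real.exp (16 * E * y) < qd q d) (huc : (uc d : ℝ) ≤ Real.exp (E * y)) :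
    ∑ p ∈ X, wt p * min 1 ((Y / (nm p.1 * nm p.2)) ^ 2) ≤ |C3| * (1 + 16 * E * y) ^ E' +
        C5 * (1 + Y ^ (1 / 2 + ε) * uc d / nm d) := by
  classical
  set L : ℝ := Real.exp (16 * E * y) with hL
  have hL2 : 2 ≤ L := by
    have h3 : (16 : ℝ) * E * y + 1 ≤ L := Real.add_one_le_exp _
    have h4 : 1 ≤ (E : ℝ) * y := one_le_mul_of_one_le_of_one_le hE' hy1
    linarith
  have hL1 : 1 ≤ L := by linarith
  have hlogL : Real.log L = 16 * E * y := Real.log_exp _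
  rw [← Finset.sum_filter_add_sum_filter_not X (fun p => nm p.1 * nm p.2 < L)]
  apply add_le_add
  · have hprop : ∀ p ∈ X.filter (fun p => nm p.1 * nm p.2 < L), p.1 ≠ ⊥ ∧ p.2 ≠ ⊥ ∧
        Ideal.absNorm p.1 = Ideal.absNorm p.2 ∧ nm p.1 ≤ L := by
      intro p hp
      rw [Finset.mem_filter] at hp
      have h3 := hX p hp.1
      have h4 := (hNCG F q hq.sq d hqd p h3).2.1 (hp.2.trans hLq)
      obtain ⟨i1, i2, -⟩ := h3
      refine ⟨i1, i2, h4, ?_⟩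
      refine le_trans ?_ hp.2.le
      exact le_mul_of_one_le_right (by linarith [SRq_nm_ge i1]) (SRq_nm_ge i2)
    have h5 := hSNO L _ hL1 hprop
    rw [hlogL] at h5
    refine le_trans ?_ (h5.trans ?_)
    · apply Finset.sum_le_sum
      intro p hp
      obtain ⟨i1, i2, -, -⟩ := hprop p hp
      have j1 := SRq_nm_ge i1
      have j2 := SRq_nm_ge i2
      have hlog0 : 0 ≤ Real.log (nm p.1 * nm p.2) :=
        Real.log_nonneg (one_le_mul_of_one_le_of_one_le j1 j2)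
      have hlog1 : 1 ≤ (1 + Real.log (nm p.1 * nm p.2)) ^ 2 :=
        one_le_pow₀ (by linarith)
      exact mul_le_mul_of_nonneg_left ((min_le_left _ _).trans hlog1) (SRq_wt_nonneg p)
    · apply mul_le_mul_of_nonneg_right (le_abs_self _)
      have : 0 ≤ 16 * E * y := by positivity
      positivity
  · have h5 := hCHT L Y (X.filter (fun p => ¬ nm p.1 * nm p.2 < L)) hmb hqd
      hL2 hY1 (by
        refine huc.trans (le_of_eq ?_)
        rw [hL, ← Real.exp_mul]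
        congr 1
        ring) (by
        intro p hp
        rw [Finset.mem_filter] at hp
        exact ⟨hX p hp.1, not_lt.1 hp.2⟩)
    refine h5.trans ?_
    have h6 : L ^ (-(1 / 4) : ℝ) ≤ 1 :=
      Real.rpow_le_one_of_one_le_of_nonpos hL1 (by norm_num)
    have hnmd : 0 ≤ nm d := Nat.cast_nonneg _
    have h8 : 0 ≤ Y ^ (1 / 2 + ε) := Real.rpow_nonneg (by linarith) _
    have h7 : 0 ≤ Y ^ (1 / 2 + ε) * uc d / nm d := by positivity
    calc Ca * (L ^ (-(1 / 4) : ℝ) + Y ^ (1 / 2 + ε) * uc d / nm d) ≤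
          Ca * (1 + Y ^ (1 / 2 + ε) * uc d / nm d) :=
          mul_le_mul_of_nonneg_left (by linarith) hCa
      _ ≤ C5 * (1 + Y ^ (1 / 2 + ε) * uc d / nm d) :=
          mul_le_mul_of_nonneg_right hC5a (by linarith)

theorem SRdz_term {F : Type} [Field F] [NumberField F] [IsTotallyComplex F]
    {Cd B C₀ T Kw Q M : ℝ} {k : ℕ} {α β : ℂ} {u : ℝ} {m : Ideal (𝓞 F)}
    {p : Ideal (𝓞 F) × Ideal (𝓞 F)} (hCd : 0 < Cd) (hB : 0 ≤ B)
    (hDT : ∀ (m : Ideal (𝓞 F)) (Q M : ℝ) (s₁ s₂ : ℂ) (c₁ c₂ : Finset (PrI F) → ℂ)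
      (J₁ J₂ : Ideal (𝓞 F)), 1 ≤ Q → 1 ≤ M →
      |s₁.re - 1 / 2| ≤ 1 / 16 → |s₂.re - 1 / 2| ≤ 1 / 16 →
      |s₁.re - 1 / 2| * (1 + Real.log Q + Real.log M) ≤ C₀ * Kw →
      |s₂.re - 1 / 2| * (1 + Real.log Q + Real.log M) ≤ C₀ * Kw →
      (∀ S, ‖c₁ S‖ ≤ nS np S ^ (-(1 / 2) : ℝ)) → (∀ S, ‖c₂ S‖ ≤ nS np S ^ (-(1 / 2) : ℝ)) →
      J₁ ≠ ⊥ → J₂ ≠ ⊥ → J₁ ⊔ J₂ = ⊤ →
      ‖Dz m Q M s₁ s₂ c₁ c₂ J₁ J₂‖ ≤ Cd * (1 + |s₁.im| + |s₂.im|) ^ B * wt (J₁, J₂) *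
        (1 + Real.log Q + Real.log M) ^ k * min 1 ((Q * M ^ 2 / (nm J₁ * nm J₂)) ^ 2))
    (hQ1 : 1 ≤ Q) (hM1 : 1 ≤ M) (hT0 : 0 < T) (hC₀ : 0 < C₀) (hδ : C₀ / T ≤ 1 / 16)
    (hW0 : 0 ≤ 1 + Real.log Q + Real.log M) (hWT : 1 + Real.log Q + Real.log M ≤ Kw * T)
    (hα : ‖α‖ ≤ C₀ / T) (hβ : ‖β‖ ≤ C₀ / T) (i1 : p.1 ≠ ⊥) (i2 : p.2 ≠ ⊥)
    (i3 : p.1 ⊔ p.2 = ⊤) :
    ‖Dz m Q M (1 / 2 + α + u * I) (1 / 2 + β - u * I) (cu F M u) (cu F M (-u)) p.1 p.2‖ ≤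
      (1 + |u|) ^ B * (Cd * 3 ^ B * (1 + Real.log Q + Real.log M) ^ k) *
        (wt p * min 1 ((Q * M ^ 2 / (nm p.1 * nm p.2)) ^ 2)) := by
  obtain ⟨hs1, hs2, him⟩ := SRdz_shift (by linarith : C₀ / T ≤ 1 / 8) α β u hα hβ
  have hsW : ∀ a : ℝ, |a| ≤ C₀ / T → |a| * (1 + Real.log Q + Real.log M) ≤ C₀ * Kw := by
    intro a ha
    calc |a| * (1 + Real.log Q + Real.log M) ≤ C₀ / T * (Kw * T) :=
          mul_le_mul ha hWT hW0 (by positivity)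
      _ = C₀ * Kw := by field_simp
  refine (hDT m Q M (1 / 2 + α + u * I) (1 / 2 + β - u * I) (cu F M u) (cu F M (-u)) p.1 p.2
    hQ1 hM1 (hs1.trans hδ) (hs2.trans hδ) (hsW _ hs1) (hsW _ hs2)
    (fun S => SRdz_norm_cu_le hM1 u S) (fun S => SRdz_norm_cu_le hM1 (-u) S) i1 i2 i3).trans ?_
  have h5 : (1 + |(1 / 2 + α + u * I : ℂ).im| + |(1 / 2 + β - u * I : ℂ).im|) ^ B ≤
      3 ^ B * (1 + |u|) ^ B := by
    rw [← Real.mul_rpow (by norm_num) (by positivity)]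
    exact Real.rpow_le_rpow (by positivity) him hB
  have hw := SRq_wt_nonneg p
  have hmin : 0 ≤ min 1 ((Q * M ^ 2 / (nm p.1 * nm p.2)) ^ 2) :=
    le_min zero_le_one (sq_nonneg _)
  have hWk : 0 ≤ (1 + Real.log Q + Real.log M) ^ k := pow_nonneg hW0 k
  calc Cd * (1 + |(1 / 2 + α + u * I : ℂ).im| + |(1 / 2 + β - u * I : ℂ).im|) ^ B *
        wt (p.1, p.2) * (1 + Real.log Q + Real.log M) ^ k *
          min 1 ((Q * M ^ 2 / (nm p.1 * nm p.2)) ^ 2)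
      ≤ Cd * (3 ^ B * (1 + |u|) ^ B) * wt p * (1 + Real.log Q + Real.log M) ^ k *
        min 1 ((Q * M ^ 2 / (nm p.1 * nm p.2)) ^ 2) :=
        mul_le_mul_of_nonneg_right (mul_le_mul_of_nonneg_right (mul_le_mul_of_nonneg_right
          (mul_le_mul_of_nonneg_left h5 hCd.le) hw) hWk) hmin
    _ = _ := by ring

theorem pf_SRdz (hNCR : T_NCR) (hPAR : T_PAR) (hNCG : T_NCG) (hSNO : T_SNO) (hCHT : T_CHT)
    (hCH1 : T_CH1) (hDT : T_DTz) (hCQ : T_CQz) : T_SRdz := by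
  classical
  intro F _ _ _ _ A ε₁ C₀ hA h1 h2 hC₀
  obtain ⟨CN, E, hCN1, hE, hNCR⟩ := hNCR F
  obtain ⟨C3, E', hSNO⟩ := hSNO F
  obtain ⟨x1, hNCR⟩ := hNCR A
  obtain ⟨x2, hPAR⟩ := hPAR F A
  obtain ⟨-, hfr, c, hc, hCQ⟩ := hCQ F
  set n : ℝ := (Module.finrank ℚ F : ℝ) with hn
  have hn1 : 1 ≤ n := by
    rw [hn]
    exact_mod_cast (Module.finrank_pos : 0 < Module.finrank ℚ F)
  have hn0 : 0 < n := by linarith
  set D : ℝ := max 1 (c ^ 2) with hD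
  have hD1 : 1 ≤ D := le_max_left _ _
  have hcD : c ^ 2 ≤ D := le_max_right _ _
  set ε : ℝ := min (1 / 64) (min (ε₁ / 8) (1 / (32 * n))) with hε
  have hε0 : 0 < ε := lt_min (by norm_num) (lt_min (by linarith) (by positivity))
  have hε1 : ε ≤ 1 / 64 := min_le_left _ _
  have hε2 : ε ≤ ε₁ / 8 := (min_le_right _ _).trans (min_le_left _ _)
  have hε3 : ε ≤ 1 / (32 * n) := (min_le_right _ _).trans (min_le_right _ _)
  obtain ⟨Ca, hCa, hCHT⟩ := hCHT F ε hε0 hε1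
  obtain ⟨Cb, hCb, hCH1⟩ := hCH1 F ε hε0 hε1
  set C5 : ℝ := Ca + Cb with hC5
  have hC50 : 0 ≤ C5 := by positivity
  have hC5a : Ca ≤ C5 := by rw [hC5]; linarith
  have hC5b : Cb ≤ C5 := by rw [hC5]; linarith
  set Kw : ℝ := 1 + |Real.log (c ^ 2)| + 2 * n with hKw
  have hKw0 : 0 < Kw := by positivity
  obtain ⟨Cd, B, k, hCd, hB, hDT⟩ := hDT F (C₀ * Kw) 2 (by positivity)
  have h3B : (0 : ℝ) < 3 ^ B := Real.rpow_pos_of_pos (by norm_num) _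
  obtain ⟨y0, hy01, hreal⟩ := SRdz_real n D ε₁ (Cd * 3 ^ B) Kw CN |C3| C5
    (16 * C₀ + 1 + |Real.log (c ^ 2)|) E E' A k hn1 hD1 hA h1 (by positivity) hKw0.le
    (by linarith) (abs_nonneg _) hC50
  refine ⟨B, hB, max (max x1 x2) (Real.exp y0), ?_⟩
  intro x q hx hq α β u hα hβ d hqd hdq X hX
  have hxe : Real.exp y0 ≤ x := (le_max_right _ _).trans hx
  have hx1 : x1 ≤ x := ((le_max_left _ _).trans (le_max_left _ _)).trans hx
  have hx2 : x2 ≤ x := ((le_max_right _ _).trans (le_max_left _ _)).trans hx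
  have hx0 : 0 < x := lt_of_lt_of_le (Real.exp_pos _) hxe
  set y : ℝ := Real.log x with hy
  have hxy : Real.exp y = x := Real.exp_log hx0
  have hyy0 : y0 ≤ y := (Real.le_log_iff_exp_le hx0).2 hxe
  obtain ⟨hncq, hNE, hNCR⟩ := hNCR x q hx1 hq
  obtain ⟨hT1, hT2, -, hlogN⟩ := hPAR x q hx2 hq
  obtain ⟨huc, hncuc, hncpd⟩ := hNCR d hqd
  obtain ⟨hpdqd, hpd1⟩ := SRdz_pd q hq.sq.1 d
  have hq1 : 1 ≤ q := Nat.one_le_iff_ne_zero.2 hq.sq.1.ne_zero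
  obtain ⟨hcB, hNq⟩ := hCQ q hq1
  set m : Ideal (𝓞 F) := qi F q with hm
  set T : ℝ := Real.log q with hT
  have hy1 : 1 ≤ y := hy01.trans hyy0
  have hE' : (1 : ℝ) ≤ E := by exact_mod_cast hE
  have hT0 : 0 < T := lt_of_lt_of_le (by positivity) hT1
  have hnT0 : 0 < n * T := by positivity
  have hq0 : (q : ℝ) = Real.exp T := by
    have h3 : (0 : ℝ) < (q : ℝ) := by exact_mod_cast hq1
    rw [hT, Real.exp_log h3]
  -- the norm of `q`
  set N : ℝ := nm m with hN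
  have hN0 : 0 ≤ N := Nat.cast_nonneg _
  have hNe : N = Real.exp (n * T) := by
    have h3 : N ≠ 0 := by
      intro h0
      rw [h0, Real.log_zero] at hlogN
      linarith
    rw [← hlogN, Real.exp_log (lt_of_le_of_ne hN0 (Ne.symm h3))]
  have hNpos : 0 < N := by rw [hNe]; exact Real.exp_pos _
  have hmb : m ≠ ⊥ := by
    intro h0
    have : N = 0 := by
      rw [hN, h0]
      unfold nm
      rw [Ideal.absNorm_bot]
      simp
    linarith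
  have hdb : d ≠ ⊥ := by
    intro h0
    rw [h0, le_bot_iff] at hqd
    exact hmb hqd
  have hnmd : 0 < nm d := by
    have := SRq_nm_ge hdb
    linarith
  set M : ℝ := Mo F ε₁ q with hM
  have hMe : M = Real.exp ((1 / 2 - ε₁) * (n * T)) := by
    have h3 : M = N ^ (1 / 2 - ε₁) := rfl
    rw [h3, hNe, ← Real.exp_mul]
    congr 1
    ring
  have hκ : 0 < 1 / 2 - ε₁ := by linarith
  have hlogM : Real.log M = (1 / 2 - ε₁) * (n * T) := by rw [hMe, Real.log_exp]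
  have hM1 : 1 ≤ M := by rw [hMe]; exact Real.one_le_exp (by positivity)
  set Q : ℝ := cB F m ^ 2 with hQ
  have hQe : Q = c ^ 2 * Real.exp (n * T) := by
    rw [hQ, hcB, mul_pow, ← pow_mul, mul_comm (nrComplexPlaces F) 2, ← hfr, ← hNq, ← hNe]
  have hlogQ : Real.log Q = Real.log (c ^ 2) + n * T := by
    rw [hQe, Real.log_mul (by positivity) (Real.exp_pos _).ne', Real.log_exp]
  set W : ℝ := 1 + Real.log Q + Real.log M with hW
  have hWe : W = 1 + (Real.log (c ^ 2) + n * T) + (1 / 2 - ε₁) * (n * T) := by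
    rw [hW, hlogQ, hlogM]
  -- the size of `T`
  have hTbig : 16 * C₀ + 1 + |Real.log (c ^ 2)| ≤ T :=
    (hreal y T 0 hyy0 hT1 hT2 le_rfl (mul_nonneg hKw0.le hT0.le)).1
  obtain ⟨-, hlogQ0, hW0, hWT, hδ⟩ := SRdz_par hn1 hκ (by linarith : 1 / 2 - ε₁ ≤ 1) hC₀ hTbig
  rw [← hWe] at hW0 hWT
  rw [← hlogQ] at hlogQ0
  obtain ⟨-, g1, g2, g3, g4⟩ := hreal y T W hyy0 hT1 hT2 hW0 hWT
  have hQ1 : 1 ≤ Q := by
    have h4 : 0 < Q := by
      rw [hQe]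
      exact mul_pos (pow_pos hc 2) (Real.exp_pos _)
    rw [← Real.exp_log h4]
    exact Real.one_le_exp hlogQ0
  have hY1 : 1 ≤ Q * M ^ 2 := one_le_mul_of_one_le_of_one_le hQ1 (one_le_pow₀ hM1)
  set G : ℝ := Cd * 3 ^ B * W ^ k with hG
  have hG0 : 0 ≤ G := mul_nonneg (mul_nonneg hCd.le h3B.le) (pow_nonneg hW0 k)
  have hterm : ∀ p ∈ X, ‖Dz m Q M (1 / 2 + α + u * I) (1 / 2 + β - u * I) (cu F M u)
      (cu F M (-u)) p.1 p.2‖ ≤ (1 + |u|) ^ B * G *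
        (wt p * min 1 ((Q * M ^ 2 / (nm p.1 * nm p.2)) ^ 2)) := by
    intro p hp
    obtain ⟨i1, i2, i3, -⟩ := hX p hp
    exact SRdz_term hCd hB hDT hQ1 hM1 hT0 hC₀ hδ hW0 hWT hα hβ i1 i2 i3
  set w : ℝ := ∑ p ∈ X, wt p * min 1 ((Q * M ^ 2 / (nm p.1 * nm p.2)) ^ 2) with hw
  have hsum : ∑ p ∈ X, ‖Dz m Q M (1 / 2 + α + u * I) (1 / 2 + β - u * I) (cu F M u)
      (cu F M (-u)) p.1 p.2‖ ≤ (1 + |u|) ^ B * G * w := by
    refine (Finset.sum_le_sum hterm).trans ?_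
    rw [← Finset.mul_sum]
  -- it is enough to bound `w`
  have hCN0 : 0 ≤ CN := zero_le_one.trans hCN1
  have hncd0 : (0 : ℝ) ≤ (nc m d : ℝ) := Nat.cast_nonneg _
  have hncq0 : (0 : ℝ) ≤ (nc m m : ℝ) := Nat.cast_nonneg _
  have hucd0 : (0 : ℝ) ≤ (uc d : ℝ) := Nat.cast_nonneg _
  have huB : 0 ≤ (1 + |u|) ^ B := by positivity
  suffices hmain : (nc m d : ℝ) * (G * w) ≤ nc m m * (x ^ (1 / 8 : ℝ) *
      pd q d ^ (-(3 / 4) : ℝ) + N ^ (-(ε₁ / 8))) by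
    calc (nc m d : ℝ) * ∑ p ∈ X, ‖Dz m Q M (1 / 2 + α + u * I) (1 / 2 + β - u * I) (cu F M u)
          (cu F M (-u)) p.1 p.2‖ ≤ nc m d * ((1 + |u|) ^ B * G * w) :=
          mul_le_mul_of_nonneg_left hsum hncd0
      _ = (1 + |u|) ^ B * (nc m d * (G * w)) := by ring
      _ ≤ _ := mul_le_mul_of_nonneg_left hmain huB
  have hx8 : x ^ (1 / 8 : ℝ) = Real.exp (y / 8) := by
    rw [← hxy, ← Real.exp_mul]
    congr 1
    ring
  have hN8 : N ^ (-(ε₁ / 8)) = Real.exp (-(ε₁ / 8 * (n * T))) := by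
    rw [hNe, ← Real.exp_mul]
    congr 1
    ring
  have hxE : x ^ E = Real.exp (E * y) := by
    rw [← hxy, ← Real.exp_nat_mul]
  rw [hxE] at hNE huc
  rw [hNe] at hNE
  rw [hx8, hN8]
  -- `Y`
  have hYe : Q * M ^ 2 = c ^ 2 * Real.exp ((2 - 2 * ε₁) * (n * T)) := by
    rw [hQe, hMe, ← Real.exp_nat_mul, mul_assoc, ← Real.exp_add]
    congr 2
    push_cast
    ring
  have hY0 : 0 < Q * M ^ 2 := zero_lt_one.trans_le hY1
  have hS30 : 0 ≤ |C3| * (1 + 16 * E * y) ^ E' := by positivity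
  refine SRdz_end hn0 hD1 h1 hT0 (zero_le_one.trans hy1) hε0 hε1 hε2 hε3 hY0 hYe hcD hG0 hncd0 hncq0
    hnmd hpd1 hS30 hC50 hCN0 hucd0 (Real.exp_pos _).le hNE huc hncuc hncpd g2 g3 g4 ?_
  by_cases hcase : Real.exp (T / 2) ≤ (qd q d : ℝ)
  · -- many primes
    left
    exact SRdz_many hNCG hSNO (hCHT m d) hq hqd hmb hE' hy1 hY1 hC5a hCa.le hX
      (lt_of_lt_of_le (Real.exp_lt_exp.mpr g1) hcase) huc
  · -- few primes
    right
    rw [not_le] at hcase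
    constructor
    · by_contra hcon
      rw [not_le] at hcon
      have h3 : pd q d * (qd q d : ℝ) < Real.exp (T / 2) * Real.exp (T / 2) :=
        mul_lt_mul'' hcon hcase (by linarith) (Nat.cast_nonneg _)
      rw [hpdqd, hq0, ← Real.exp_add, add_halves] at h3
      exact lt_irrefl _ h3
    · refine (hCH1 m d (Q * M ^ 2) X hmb hqd hY1 hX).trans ?_
      have h6 : 0 ≤ (Q * M ^ 2) ^ ε := Real.rpow_nonneg hY0.le _
      have h7 : 0 ≤ (Q * M ^ 2) ^ (1 / 2 : ℝ) := Real.rpow_nonneg hY0.le _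
      have h8 : 0 ≤ 1 + (Q * M ^ 2) ^ (1 / 2 : ℝ) / nm d := by positivity
      exact mul_le_mul_of_nonneg_right (mul_le_mul_of_nonneg_right
        (mul_le_mul_of_nonneg_right hC5b h6) hucd0) h8

end Pool.Agent.H54.SM
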